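import Pool.Agent.Lib.MP_12eaff_co.Acc2.Hand
import Pool.Agent.Lib.MP_12eaff_co.Acc2.Cnt3
import Pool.Agent.Lib.MP_12eaff_co.Acc2.Inst
import Pool.Agent.Lib.MP_12eaff_co.ATD

set_option autoImplicit false
set_option linter.unusedSectionVars false

namespace Pool.Agent.Lib.MP_12eaff_co.FB

open Finset Pool.Agent.Lib.MP_12eaff_co.BK Pool.Agent.Lib.MP_12eaff_co.Acc2
open scoped Classical

variable {V : Type} [Fintype V] {G : SimpleGraph V} {D : ℕ}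

/-- A cluster off `Dm`: a core clique `Y` and either no or two twins `W`; the largest clique has
between `D - 4` and `D - 1` vertices, and every other vertex misses two core vertices. -/
structure Clu (G : SimpleGraph V) (D : ℕ) (Dm Y W : Finset V) : Prop where
  real : ∀ v ∈ Y ∪ W, v ∉ Dm
  clq : IsClq G Y
  tw : W = ∅ ∨ ∃ a b, a ≠ b ∧ ¬ G.Adj a b ∧ W = {a, b}
  join : ∀ y ∈ Y, ∀ a ∈ W, G.Adj y a
  big : D ≤ Y.card + if W = ∅ then 4 else 5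
  small : Y.card + (if W = ∅ then 1 else 2) ≤ D
  far : ∀ z, z ∉ Dm → z ∉ Y ∪ W → ∃ w ∈ Y, ∃ w' ∈ Y, w ≠ w' ∧ ¬ G.Adj z w ∧ ¬ G.Adj z w'

/-- No clique of size `D` off `Dm`. -/
def NoK (G : SimpleGraph V) (D : ℕ) (Dm : Finset V) : Prop :=
  ∀ Q, IsClq G Q → (∀ v ∈ Q, v ∉ Dm) → Q.card < D

/-- The cluster that protects `u`. -/
noncomputable def clu (G : SimpleGraph V) (D : ℕ) (Dm : Finset V) (u : V) : Finset V × Finset V :=
  if h : ∃ p : Finset V × Finset V, Clu G D Dm p.1 p.2 ∧ u ∈ p.1 ∪ p.2 then h.choose else ({u}, ∅)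

/-- Membership in a cluster. -/
def mbC (p : Finset V × Finset V) (x : V) : Prop := x ∈ p.1 ∪ p.2

/-- Eligibility: only core vertices that are unique at the owner are adopted, by the owner or
from outside. -/
def elC (G : SimpleGraph V) (D : ℕ) (Dm : Finset V) (a : V × V × (V → ℕ)) (_ : ℕ)
    (v : V × V × (V → ℕ)) (_ : ℕ) (u : V) : Prop :=
  ∀ Y W, Clu G D Dm Y W → u ∈ Y ∪ W →
    u ∈ Y ∧ (G.Adj a.1 u ∧ u ≠ a.2.1 ∧ Uq G a.2.2 a.1 u) ∧ (v.1 = a.1 ∨ v.1 ∉ Y ∪ W)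

/-- The visited part of a cluster with owner `q`. -/
structure Fam (T : Tr G D) (Y W : Finset V) (q : V) : Prop where
  cl : Clu G D T.Dm Y W
  hq : q ∈ T.R
  mem : q ∈ Y ∪ W
  pq : q ≠ T.r → T.p q ∉ Y ∪ W
  vis : ∀ u ∈ T.R, u ∈ Y ∪ W → u ≠ q →
    u ∈ Y ∧ u ∈ T.O q ∧ u ≠ T.r ∧ (T.p u = q ∨ T.p u ∉ Y ∪ W)
  all : ∀ u ∈ Y, Pr T q u → u ∈ T.O q

/-- Trees with cluster ownership. -/
structure IsC (T : Tr G D) : Prop extends IsB T where
  s2 : T.S2 = ∅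
  stat : AT.Stat G D T.Dm
  nok : NoK G D T.Dm
  fam : ∀ Y W, Clu G D T.Dm Y W → ∀ x ∈ T.R, x ∈ Y ∪ W → ∃ q, Fam T Y W q
  drop : ∀ v ∈ T.R, ∀ u ∈ T.Dr v, u ∉ T.Dm → u ∉ T.R ∧ ∃ Y W q, Fam T Y W q ∧ u ∈ Y ∪ W

/-- `t` is charged for mutual arcs only. -/
def Cm (T : Tr G D) (v u : V) : Prop := v ∈ T.O u

/-- The charged neighbours of `y`. -/
noncomputable def Ch (T : Tr G D) (y : V) : Finset V :=
  T.tE (Cm T) (O0 T) y ∪ T.WQ (O0 T) y ∪ T.nE (Cm T) (O0 T) y ∪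
    if T.ch y = ∅ then T.piQ (O0 T) y else ∅

/-- Two units for an internal vertex. -/
noncomputable def i2 (T : Tr G D) (y : V) : ℕ := if T.ch y = ∅ then 0 else 2

/-- The mutual `T0` tails. -/
noncomputable def jm (T : Tr G D) (y : V) : Finset V := T.WQ (O0 T) y ∩ T.O y

/-- `y` has a prober outside `H` that is not below `y`. -/
def Loud (T : Tr G D) (H : Finset V) (y : V) : Prop :=
  ∃ z ∈ T.R, z ∉ H ∧ y ∈ T.O z ∧ ¬ T.Anc y z

end Pool.Agent.Lib.MP_12eaff_co.FB
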