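import Pool.Agent.Lib.MP_12eaff_co.FB.Defs
import Pool.Agent.Lib.MP_12eaff_co.Acc2.PG

set_option autoImplicit false
set_option linter.unusedSectionVars false

namespace Pool.Agent.Lib.MP_12eaff_co.FB

open Finset Pool.Agent.Lib.MP_12eaff_co.BK Pool.Agent.Lib.MP_12eaff_co.Acc2
open scoped Classical

variable {V : Type} [Fintype V] {G : SimpleGraph V} {D : ℕ}

/-- Virtual probe of `e` from `z`: `z` takes the colour of the non-neighbour `e`, and `e` becomes
the hole.  Ports keep the colour of `s(z)` or are blank, except the pendant ports of `e` and the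
pendant port `m1`. -/
structure VQ (T : Tr G D) (z e m1 : V) (f : V → ℕ) : Prop where
  zR : z ∈ T.R
  eR : e ∈ T.R
  na : ¬ T.Anc e z
  nadj : ¬ G.Adj z e
  cz : T.c z ≠ T.c e
  real : ∀ m, m ∉ T.Dm → f m = shift D (T.col z) z e m
  port : ∀ m ∈ T.Dm, f m = T.col z m ∨ D < f m ∨ (∀ a, G.Adj a m → a = e) ∨ m = m1
  one : ∀ a b, G.Adj a m1 → G.Adj b m1 → a = b
  hc : ∀ S : Finset V, e ∈ S → (∀ m ∈ S, m ∉ T.Dm) → Cov G S 2 →
    HC G D ⟨S, univ.filter fun m => D < f m⟩ e f

/-- Port tickets. -/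
noncomputable def Tix (T : Tr G D) : Finset (V × ℕ) :=
  (T.R ×ˢ range D).filter fun a => ∃ z ∈ T.R, T.Port z a.1 a.2

/-- Hidden ports. -/
noncomputable def pb (T : Tr G D) (y : V) : ℕ := (T.Bd y ∩ T.Dm).card

/-- Hidden ports of a virtually probed vertex. -/
noncomputable def vq (T : Tr G D) (y : V) : ℕ := if ∃ z m1 f, VQ T z y m1 f then pb T y else 0

/-- Four more units at a passage child. -/
noncomputable def px (T : Tr G D) (y : V) : ℕ := if y ≠ T.r ∧ y ∉ T.O (T.p y) then 4 else 0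

/-- Vertices of visited clusters that are not visited. -/
noncomputable def Late (T : Tr G D) : Finset V :=
  univ.filter fun e => e ∉ T.R ∧ ∃ Y W q, Fam T Y W q ∧ e ∈ Y ∪ W

/-- The vertex has an internal child or is probed virtually. -/
def Clm (T : Tr G D) (e : V) : Prop :=
  (∃ x ∈ T.ch e, (T.ch x).Nonempty) ∨ ∃ z m1 f, VQ T z e m1 f

/-- Units for the clique side at `e`: the blank bonus and one unit per hidden port. -/
noncomputable def gain (T : Tr G D) (e : V) : ℕ :=
  (if T.Bd e = ∅ then 1 else 0) + if Clm T e then pb T e else 0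

/-- The account of the graph without its `D`-cliques, on trees with cluster ownership. -/
def UThm2 (D : ℕ) : Prop :=
  ∀ (V : Type) [Fintype V] (G : SimpleGraph V) (U P : Finset V), MC G D →
    (∀ v, v ∈ U ↔ ∃ K, IsClq G K ∧ K.card = D ∧ v ∈ K) →
    ∀ (T : Tr (PG G U P) D) (q : Finset (PV V) × Finset (PV V) → PV V) (pf : PV V → PV V → ℕ),
      IsB T → T.Dm = PD U P → T.S2 = ∅ →
      Own T mbC (clu (PG G U P) D (PD U P)) q (fun a v u => elC (PG G U P) D (PD U P)
        (a, T.p a, T.col a) (T.d a) (v, T.p v, T.col v) (T.d v) u) pf →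
      (∀ a, a ∉ T.Dm → q (clu (PG G U P) D (PD U P) a) ∈ T.R →
        mbC (clu (PG G U P) D (PD U P) a) (q (clu (PG G U P) D (PD U P) a)) →
          a ∈ T.R ∨ a ∈ Late T) ∧
      ∑ e ∈ T.R, (gain T e + 6 * (T.CX e).card) + ∑ e ∈ Late T, (nb (PG G U P) e ∩ T.Dm).card <
        (Tix T).card + ∑ v ∈ T.R, (T.Dr v ∩ T.Dm).card

end Pool.Agent.Lib.MP_12eaff_co.FB
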