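import Pool.Agent.Lib.MP_12eaff_co.FB.Ifc2

set_option autoImplicit false
set_option linter.unusedSectionVars false

namespace Pool.Agent.Lib.MP_12eaff_co.FB

open Finset Pool.Agent.Lib.MP_12eaff_co.BK Pool.Agent.Lib.MP_12eaff_co.Acc2
open scoped Classical

variable {V : Type} [Fintype V] {G : SimpleGraph V} {D : ℕ}
variable {T : Tr G D} {q y z x r v u : V}

open Tr IsA IsB

theorem pi_leaf (hl : T.ch u = ∅) (k : v ∈ T.piQ (O0 T) u) :
    v ∈ T.R ∧ u ∈ T.NT v ∧ T.HasQ (O0 T) v u ∧ v ∈ T.H (T.p u) ∧ u ≠ T.r := by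
  obtain ⟨a, b, x, c, d, -⟩ := mem_piQ.1 k
  obtain rfl := pr_tri a (T.mem_NT.1 c).1 d (b hl) (d.leaf_nanc hl)
  exact ⟨a, c, d.hasQ b, d.2.2.1, d.2.1⟩

theorem mem_Ch : v ∈ Ch T y ↔ v ∈ T.tE (Cm T) (O0 T) y ∨ v ∈ T.WQ (O0 T) y ∨
    v ∈ T.nE (Cm T) (O0 T) y ∨ T.ch y = ∅ ∧ v ∈ T.piQ (O0 T) y := by
  unfold Ch
  split_ifs with l <;> simp [l]

/-- A ticket in a tight state is a used pair or a port ticket, unless the state is a leaf. -/
theorem tk2_hasQ (k : Tk2 T v u y)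
    (l : T.ch y = ∅ → y ≠ T.r → T.c y = T.col v u → G.Adj v y) : T.HasQ (O0 T) v u := by
  obtain ⟨s, s1, -, -, ⟨x, k⟩ | k⟩ := k
  swap
  · exact k.vis_pt.hasQ
  refine k.pr.hasQ fun lx => ?_
  have n := k.pr.leaf_nanc lx
  obtain ⟨z, z1, -, z2 | z2⟩ := k.2.2.2.2
  · exact absurd z2.1 n
  obtain rfl := leaf_anc lx (z2.2.trans (z1.1.trans s1))
  exact l lx k.2.1 (by rw [← k.2.2.2.1, tc, if_neg n])

namespace IsC

theorem H_Bd (h : IsC T) (hy : y ∈ T.R) (hv : v ∈ T.R) (k : v ∈ T.H y) : v ∈ T.Bd y :=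
  ((h.mem_H2 hy).1 k).resolve_right fun d => (h.drop y hy v d (T.real v hv)).1 hv

theorem nE_nO (h : IsC T) (k : v ∈ T.nE (Cm T) (O0 T) u) : v ∉ T.O u := fun o => by
  obtain ⟨hv, h1, h2⟩ := mem_nE.1 k
  obtain ⟨h3, h4⟩ := T.mem_NT.1 h1
  by_cases t : T.PayT v u
  · exact h2 (.inl ⟨t, o⟩)
  rcases lemE (h.isSig_SP v) hv h3
    ⟨u, ⟨(T.clo v hv u h3).1, o, nanc_of_O hv h3 h4⟩, .inl rfl⟩ with z | z | ⟨x, z⟩ | z
  exacts [t z, h2 (.inr (.inl ⟨z, t⟩)), h2 (.inr (.inr (z.pr.hasQ (h.ok_SP z)))),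
    h2 (.inr (.inr (PayD.pt z fun _ k => k.1).hasQ))]

/-- A non-mutual arc comes from a hidden neighbour. -/
theorem nt_Bd (h : IsC T) (hy : y ∈ T.R) (hv : v ∈ T.R) (k : y ∈ T.NT v) (n : v ∉ T.O y) :
    v ∈ T.Bd y :=
  have k := T.mem_NT.1 k
  h.H_Bd hy hv (((adj_cases hy hv (T.O_adj v hv y k.1).symm).resolve_left n).resolve_right k.2)

theorem nE_Bd (h : IsC T) (hy : y ∈ T.R) : T.nE (Cm T) (O0 T) y ⊆ T.Bd y := fun _ k =>
  h.nt_Bd hy (mem_nE.1 k).1 (mem_nE.1 k).2.1 (h.nE_nO k)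

/-- The target of `t` is not seen from the parent. -/
theorem t_off (h : IsC T) (hy : y ∈ T.R) (o : v ∈ T.O y) (t : T.PayT y v) :
    v ∉ T.O (T.p y) ∧ v ∉ T.H (T.p y) := by
  have hp := T.p_mem y hy t.1.1
  by_cases e : v = T.p (T.p y)
  · exact ⟨fun k => O_ne_p hp k e, fun k => (T.mem_H.1 k).2.2.2 e⟩
  · have := h.t_nadj hy o t e
    exact ⟨fun k => this (T.O_adj _ hp v k), fun k => this (T.mem_H.1 k).1⟩

theorem card_Ch (h : IsC T) (hy : y ∈ T.R) : (Ch T y).card = (T.tE (Cm T) (O0 T) y).card +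
    (T.WQ (O0 T) y).card + (T.nE (Cm T) (O0 T) y).card +
      if T.ch y = ∅ then (T.piQ (O0 T) y).card else 0 := by
  have t : ∀ v ∈ T.tE (Cm T) (O0 T) y, v ∈ T.O y ∧ v ∉ T.O (T.p y) ∧ v ∉ T.H (T.p y) :=
    fun v k => have k := (mem_tE.1 k).1
      ⟨(T.mem_NT.1 k.1).1, h.t_off hy (T.mem_NT.1 k.1).1 k.2.1⟩
  have d1 : Disjoint (T.tE (Cm T) (O0 T) y) (T.WQ (O0 T) y) := disjoint_left.2 fun v p k =>
    (t v p).2.1 (mem_WQ.1 k).2.2.1.2.1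
  have d2 : Disjoint (T.tE (Cm T) (O0 T) y ∪ T.WQ (O0 T) y) (T.nE (Cm T) (O0 T) y) :=
    disjoint_left.2 fun v p k => (mem_union.1 p).elim (fun p => h.nE_nO k (t v p).1) fun p =>
      (mem_nE.1 k).2.2 (.inr (.inl ⟨(mem_WQ.1 p).2.2.1, (mem_WQ.1 p).2.2.2.1⟩))
  unfold Ch
  split_ifs with l
  · rw [card_union_of_disjoint (disjoint_left.2 fun v p k => ?_), card_union_of_disjoint d2,
      card_union_of_disjoint d1]
    have k := pi_leaf l k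
    simp only [mem_union] at p
    rcases p with (p | p) | p
    exacts [(t v p).2.2 k.2.2.2.1, (mem_WQ.1 p).2.2.2.2 k.2.2.1,
      (mem_nE.1 p).2.2 (.inr (.inr k.2.2.1))]
  · rw [union_empty, card_union_of_disjoint d2, card_union_of_disjoint d1, add_zero]

theorem Ch_in (_ : IsC T) (hy : y ∈ T.R) (k : v ∈ Ch T y) : v ∈ T.R ∧ y ∈ T.NT v := by
  rcases mem_Ch.1 k with k | k | k | ⟨l, k⟩
  · obtain ⟨⟨a, -⟩, b⟩ := mem_tE.1 k
    have o := (T.mem_NT.1 a).1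
    exact ⟨(T.clo y hy v o).1, T.mem_NT.2 ⟨b, fun c => O_ne_p hy o (T.mem_ch.1 c).2.2.symm⟩⟩
  exacts [⟨(mem_WQ.1 k).1, (mem_WQ.1 k).2.1⟩, ⟨(mem_nE.1 k).1, (mem_nE.1 k).2.1⟩,
    ⟨(pi_leaf l k).1, (pi_leaf l k).2.1⟩]

/-- At most one vertex of `O y` is hidden by the parent. -/
theorem inner_one (h : IsC T) (hy : y ∈ T.R) (yr : y ≠ T.r) :
    (T.O y ∩ T.H (T.p y)).card ≤ 1 := card_le_one.2 fun a ha b hb => by
  by_contra e
  obtain ⟨a1, a2⟩ := mem_inter.1 ha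
  obtain ⟨b1, b2⟩ := mem_inter.1 hb
  have hp := T.p_mem y hy yr
  have := h.Bd_col hp (h.H_Bd hp (T.clo y hy a a1).1 a2) (h.H_Bd hp (T.clo y hy b b1).1 b2)
  refine T.uniq y hy b b1 a (T.O_adj y hy a a1) e ?_
  rw [col_step hy yr (O_real hy a1) (T.O_adj y hy a a1).ne.symm (T.mem_H.1 a2).1.ne.symm,
    col_step hy yr (O_real hy b1) (T.O_adj y hy b b1).ne.symm (T.mem_H.1 b2).1.ne.symm, this]

theorem Ch_cases (h : IsC T) (hy : y ∈ T.R) (k : v ∈ Ch T y) : v ∈ T.tE (Cm T) (O0 T) y ∨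
    v ∈ jm T y ∨ v ∈ T.Bd y ∩ T.R ∨ T.ch y = ∅ ∧ y ≠ T.r ∧ v ∈ T.O y ∩ T.H (T.p y) := by
  obtain ⟨a, b⟩ := h.Ch_in hy k
  by_cases o : v ∈ T.O y
  swap
  · exact .inr (.inr (.inl (mem_inter.2 ⟨h.nt_Bd hy a b o, a⟩)))
  rcases mem_Ch.1 k with k | k | k | ⟨l, k⟩
  exacts [.inl k, .inr (.inl (mem_inter.2 ⟨k, o⟩)), absurd o (h.nE_nO k),
    .inr (.inr (.inr ⟨l, (pi_leaf l k).2.2.2.2, mem_inter.2 ⟨o, (pi_leaf l k).2.2.2.1⟩⟩))]

theorem Bd_split (h : IsC T) (hy : y ∈ T.R) :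
    (T.Bd y ∩ T.R).card + (T.Bd y ∩ T.Dm).card ≤ 2 := by
  rw [← card_union_of_disjoint (disjoint_left.2 fun v p k =>
    T.real v (mem_inter.1 p).2 (mem_inter.1 k).2)]
  exact (card_le_card (union_subset inter_subset_left inter_subset_left)).trans (h.card_Bd hy)

theorem Ch_gen (h : IsC T) (hy : y ∈ T.R) : (Ch T y).card ≤ (T.tE (Cm T) (O0 T) y).card +
    (jm T y).card + (T.Bd y ∩ T.R).card + if T.ch y = ∅ ∧ y ≠ T.r then 1 else 0 := by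
  have s : Ch T y ⊆ T.tE (Cm T) (O0 T) y ∪ jm T y ∪ (T.Bd y ∩ T.R) ∪
      if T.ch y = ∅ ∧ y ≠ T.r then T.O y ∩ T.H (T.p y) else ∅ := fun v k => by
    rcases h.Ch_cases hy k with k | k | k | ⟨a, b, k⟩
    · simp [k]
    · simp [k]
    · simp only [mem_union, k, or_true, true_or]
    · rw [if_pos ⟨a, b⟩]
      exact mem_union_right _ k
  refine (card_le_card s).trans ((card_union_le _ _).trans (add_le_add ((card_union_le _ _).trans
    (add_le_add_left (card_union_le _ _) _)) ?_))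
  split_ifs with l
  exacts [h.inner_one hy l.2, le_rfl]

theorem Ch_le' (h : IsC T) (hy : y ∈ T.R) : (Ch T y).card + (T.Bd y ∩ T.Dm).card + i2 T y ≤
    (jm T y).card + if T.ch y = ∅ then 4 else 5 := by
  have a := h.Ch_gen hy
  have := h.Bd_split hy
  have := card_tE (Ct := Cm T) (Use := O0 T) hy
  unfold i2
  split_ifs at a with l
  · rw [if_pos l.1, if_pos l.1]
    omega
  · split_ifs <;> omega

theorem Ch_le (h : IsC T) (hy : y ∈ T.R) :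
    (Ch T y).card + i2 T y + pb T y ≤ (jm T y).card + if T.ch y = ∅ then 4 else 5 := by
  have := h.Ch_le' hy
  unfold pb
  omega

theorem Ch_pass (h : IsC T) (hy : y ∈ T.R) (k : y = T.r ∨ y ∉ T.O (T.p y)) :
    jm T y = ∅ ∧ (Ch T y).card + i2 T y + pb T y ≤ 4 ∧
      ∀ a ∈ T.Bd y, a ∉ T.R → a ∉ T.Dm → (Ch T y).card + i2 T y + pb T y ≤ 3 := by
  have j : jm T y = ∅ := eq_empty_of_forall_notMem fun v p =>
    have p := (mem_WQ.1 (mem_inter.1 p).1).2.2.1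
    k.elim p.1 fun k => k p.2.2.2.2
  have t : T.tE (Cm T) (O0 T) y = ∅ := eq_empty_of_forall_notMem fun v p =>
    have p := (mem_tE.1 p).1.2.1.1
    k.elim p.1 fun k => k p.2
  have a := h.Ch_gen hy
  have b := h.Bd_split hy
  rw [j, t, card_empty] at a
  have c : (Ch T y).card + i2 T y ≤ (T.Bd y ∩ T.R).card + 2 := by
    unfold i2
    split_ifs at a with l
    · rw [if_pos l.1]
      omega
    · split_ifs <;> omega
  unfold pb
  refine ⟨j, by omega, fun a a1 a2 a3 => ?_⟩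
  have := card_erase_add_one a1
  have := h.card_Bd hy
  have : (T.Bd y ∩ T.R).card + (T.Bd y ∩ T.Dm).card ≤ ((T.Bd y).erase a).card := by
    rw [← card_union_of_disjoint (disjoint_left.2 fun v p k =>
      T.real v (mem_inter.1 p).2 (mem_inter.1 k).2)]
    exact card_le_card fun v p => (mem_union.1 p).elim
      (fun p => mem_erase.2 ⟨fun e => a2 (e ▸ (mem_inter.1 p).2), (mem_inter.1 p).1⟩)
      fun p => mem_erase.2 ⟨fun e => a3 (e ▸ (mem_inter.1 p).2), (mem_inter.1 p).1⟩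
  omega

theorem Ch_below (h : IsC T) (hy : y ∈ T.R) (k : v ∈ Ch T y) (b : T.Anc y v) :
    v ∈ T.Bd y ∧ T.ch y ≠ ∅ := by
  obtain ⟨a, n⟩ := h.Ch_in hy k
  have o := (T.mem_NT.1 n).1
  have ad := T.O_adj v a y o
  obtain ⟨x, x1, x2⟩ := b.child ad.ne.symm
  exact ⟨h.H_Bd hy a (F2' x1 x2 (fun e => O_ne_p a o (e ▸ (T.mem_ch.1 x1).2.2).symm) ad.symm),
    ne_empty_of_mem x1⟩

/-- Two real children of `q` that charge each other are mutual and have no ticket. -/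
theorem sib_mut (h : IsC T) (hy : y ∈ T.ch q) (hr : r ∈ T.ch q) (oy : y ∈ T.O q) (or : r ∈ T.O q)
    (a : r ∈ Ch T y) (b : y ∈ Ch T r) : Mut T y r ∧ ¬ T.HasQ (O0 T) r y := by
  obtain ⟨y1, -, y3⟩ := T.mem_ch.1 hy
  obtain ⟨r1, -, r3⟩ := T.mem_ch.1 hr
  have o1 := (T.mem_NT.1 (h.Ch_in r1 b).2).1
  have o2 := (T.mem_NT.1 (h.Ch_in y1 a).2).1
  have t1 : ¬ T.PayT y r := fun t => (h.t_off y1 o1 t).1 (y3 ▸ or)
  refine ⟨⟨y1, r1, o1, o2, t1, fun t => (h.t_off r1 o2 t).1 (r3 ▸ oy)⟩, fun k => ?_⟩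
  rcases mem_Ch.1 a with a | a | a | ⟨l, a⟩
  exacts [t1 (mem_tE.1 a).1.2.1, (mem_WQ.1 a).2.2.2.2 k, (mem_nE.1 a).2.2 (.inr (.inr k)),
    (T.mem_H.1 (pi_leaf l a).2.2.2.1).2.2.1 (y3 ▸ or)]

/-- handshake between two real children of `q` -/
theorem shake (h : IsC T) (hy : y ∈ T.ch q) (hr : r ∈ T.ch q) (oy : y ∈ T.O q) (or : r ∈ T.O q)
    (hz : z ∈ T.R) (pz : y ∈ T.O z) (ny : ¬ T.Anc y z) (nr : ¬ T.Anc r z) (n : ¬ G.Adj z r) :
    r ∉ Ch T y ∨ y ∉ Ch T r := by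
  by_contra! c
  obtain ⟨p, n1⟩ := h.sib_mut hy hr oy or c.1 c.2
  obtain ⟨-, n2⟩ := h.sib_mut hr hy or oy c.2 c.1
  have a := T.O_adj z hz y pz
  rcases h.ent_m p hz pz ny nr n with k | k
  · exact n2 (tk2_hasQ k fun _ _ _ => a.symm)
  refine n1 (tk2_hasQ k fun _ zr e => absurd ?_ (T.prop _ (T.p_mem z hz zr) _ _ a))
  rw [col_p_self hz zr, e, p.symm.col, col_base (T.p_mem z hz zr) (T.real y p.hu)
    fun k => ny (k.trans (anc_p hz zr))]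

/-- the interface inequality from the ledger -/
theorem iface' (h : IsC T) (hD : 5 ≤ D) (Z : ℕ)
    (L : ∑ y ∈ T.R, ((Ch T y).card + i2 T y + (T.Dr y \ T.Dm).card) + Z ≤ ∑ _y ∈ T.R, (D - 3)) :
    ∑ y ∈ T.R, ((if T.Bd y = ∅ then 1 else 0) + 2 * (T.CX y).card +
      if T.ch y = ∅ then 0 else 2 - (T.Bd (T.p y) ∩ T.R).card) + Z + 2 ≤
      ∑ y ∈ T.R, ((T.ptN y).card + (T.Dr y ∩ T.Dm).card) := by
  have a := h.final3 hD (Cm T) (O0 T)
  have b : ∀ y ∈ T.R, T.cost3 (Cm T) (O0 T) y + (T.Dr y).card +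
      (if T.ch y = ∅ then 0 else 2 - (T.Bd (T.p y) ∩ T.R).card) ≤
      ((Ch T y).card + i2 T y + (T.Dr y \ T.Dm).card) +
        ((T.ptN y).card + (T.Dr y ∩ T.Dm).card) := fun y hy => by
    have e := h.card_Ch hy
    have := card_sdiff_add_card_inter (T.Dr y) T.Dm
    have hp : T.p y ∈ T.R := by
      by_cases r : y = T.r
      exacts [by rw [r, T.p_r]; exact T.r_mem, T.p_mem y hy r]
    have := h.Bd_split hp
    have : (T.piQ (O0 T) y).card ≤ (T.Bd (T.p y) ∩ T.R).card := card_le_card fun v k =>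
      mem_inter.2 ⟨h.H_Bd hp (mem_piQ.1 k).1 (piQ_sub k), (mem_piQ.1 k).1⟩
    unfold Tr.cost3 i2
    split_ifs at * <;> omega
  have := sum_le_sum b
  simp only [sum_add_distrib] at *
  omega

theorem sum_px (T : Tr G D) : ∑ y ∈ T.R, px T y = ∑ e ∈ T.R, 4 * (T.CX e).card := by
  have := sum_real_par (T := T)
  have b : ∑ y ∈ T.R, (px T y + 4 * ((if y ≠ T.r ∧ y ∈ T.O (T.p y) then 1 else 0) +
      if y = T.r then 1 else 0)) = ∑ _y ∈ T.R, 4 := sum_congr rfl fun y _ => by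
    unfold px
    by_cases r : y = T.r <;> by_cases o : y ∈ T.O (T.p y) <;> simp [r, o]
  simp only [sum_add_distrib, ← mul_sum, sum_const, smul_eq_mul, sum_ite_eq', T.r_mem,
    if_true] at b ⊢
  omega

theorem sum_ptN (T : Tr G D) : ∑ y ∈ T.R, (T.ptN y).card ≤ (Tix T).card := by
  rw [← card_sigma]
  refine card_le_card_of_injOn (fun a => (a.1, T.col a.1 a.2)) (fun a k => ?_) fun a p b k e => ?_
  · obtain ⟨k1, k2⟩ := mem_sigma.1 (mem_coe.1 k)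
    obtain ⟨k2, k3⟩ := mem_filter.1 k2
    exact mem_coe.2 (mem_filter.2 ⟨mem_product.2
      ⟨k1, mem_range.2 (T.lt _ k1 _ (T.mem_NT.1 k2).1)⟩, k3⟩)
  · obtain ⟨a1, a2⟩ := a
    obtain ⟨b1, b2⟩ := b
    obtain ⟨rfl, e⟩ := Prod.mk.inj e
    obtain ⟨p1, p2⟩ := mem_sigma.1 (mem_coe.1 p)
    exact congrArg (Sigma.mk a1) (O_inj p1 (T.mem_NT.1 (mem_filter.1 p2).1).1
      (T.mem_NT.1 (mem_filter.1 (mem_sigma.1 (mem_coe.1 k)).2).1).1 e)

theorem sum_clm (h : IsC T) :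
    (∑ e ∈ T.R, if ∃ x ∈ T.ch e, (T.ch x).Nonempty then (T.Bd e ∩ T.Dm).card else 0) ≤
      ∑ y ∈ T.R, if T.ch y = ∅ then 0 else 2 - (T.Bd (T.p y) ∩ T.R).card := by
  refine le_trans (sum_le_sum (g := fun e => ∑ x ∈ T.ch e,
    if T.ch x = ∅ then 0 else 2 - (T.Bd (T.p x) ∩ T.R).card) fun e he => ?_) ?_
  · split_ifs with k
    swap
    · exact Nat.zero_le _
    obtain ⟨x, x1, x2⟩ := k
    refine le_trans ?_ (single_le_sum (fun _ _ => Nat.zero_le _) x1)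
    have := h.Bd_split he
    rw [if_neg x2.ne_empty, (T.mem_ch.1 x1).2.2]
    omega
  · rw [T.sum_sum_ch]
    exact sum_le_sum fun y _ => by split_ifs <;> omega

/-- the interface inequality from the ledger -/
theorem iface (h : IsC T) (hD : 5 ≤ D)
    {N : ℕ} (L : ∑ y ∈ T.R, ((Ch T y).card + i2 T y + px T y + (T.Dr y \ T.Dm).card) + N ≤
      ∑ _y ∈ T.R, (D - 3)) :
    ∑ e ∈ T.R, (((if T.Bd e = ∅ then 1 else 0) +
      if ∃ x ∈ T.ch e, (T.ch x).Nonempty then (T.Bd e ∩ T.Dm).card else 0) +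
        6 * (T.CX e).card) + N <
      (Tix T).card + ∑ v ∈ T.R, (T.Dr v ∩ T.Dm).card := by
  have a := h.iface' hD (∑ y ∈ T.R, px T y + N) (by
    simp only [sum_add_distrib] at L ⊢
    omega)
  have := sum_px T
  have := sum_ptN T
  have := h.sum_clm
  simp only [sum_add_distrib, ← mul_sum] at *
  omega

end IsC

end Pool.Agent.Lib.MP_12eaff_co.FB
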