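import Pool.Agent.Lib.MP_12eaff_co.FB.Clu

set_option autoImplicit false
set_option linter.unusedSectionVars false

namespace Pool.Agent.Lib.MP_12eaff_co.FB

open Finset Pool.Agent.Lib.MP_12eaff_co.BK Pool.Agent.Lib.MP_12eaff_co.Acc2
open scoped Classical

variable {V : Type} [Fintype V] {G : SimpleGraph V} {D : ℕ}

namespace TW

variable {F : Fm V} {y u x x' : V} {f : V → ℕ}

/-- At the hole all doubled neighbours have one colour. -/
theorem dbl (h : HC G D F y f) (hd : F.Dg G D y) (a : G.Adj y x) (a' : G.Adj y x') (l : f x < D)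
    (l' : f x' < D) (n : ¬ Uq G f y x) (n' : ¬ Uq G f y x') : f x = f x' := by
  simp only [Uq, not_forall, not_not] at n
  obtain ⟨m, m1, m2, m3⟩ := n
  by_contra e
  exact n' (h.double hd a m1 (Ne.symm m2) m3.symm l a' l' (fun k => e (k ▸ rfl))
    fun k => e (k ▸ m3.symm))

/-- The same at a neighbour that is unique at the hole. -/
theorem dbl' (h : HC G D F y f) (su : u ∈ F.S) (yu : G.Adj y u) (q : Uq G f y u)
    (hd : F.Dg G D u) (a : G.Adj u x) (a' : G.Adj u x') (l : f x < D) (l' : f x' < D)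
    (n : ¬ Uq G f u x) (n' : ¬ Uq G f u x') : f x = f x' := by
  have s := h.shift su yu.ne.symm q
  have e : ∀ m, G.Adj u m → m ≠ y → shift D f y u m = f m := fun m p r => by
    rw [shift, Function.update_of_ne p.ne.symm, Function.update_of_ne r]
  have k : ∀ x, G.Adj u x → f x < D → ¬ Uq G f u x → ¬ Uq G (shift D f y u) u x :=
    fun x a l n r => n fun m p t c => by
      have : m ≠ y := h.ne_hole (c ▸ l)
      exact r m p t (by rw [e m p this, e x a (h.ne_hole l), c])
  have := dbl s hd a a' (by rwa [e x a (h.ne_hole l)]) (by rwa [e x' a' (h.ne_hole l')])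
    (k x a l n) (k x' a' l' n')
  rwa [e x a (h.ne_hole l), e x' a' (h.ne_hole l')] at this

end TW

theorem tw_hc {F : Fm V} {y a b : V} {f : V → ℕ} {Y : Finset V} (h : HC G D F y f)
    (hd : ∀ v ∈ insert a (insert b Y), F.Dg G D v) (hS : insert a (insert b Y) ⊆ F.S)
    (hY : IsClq G Y) (hy : y ∈ Y) (c : 5 ≤ Y.card) (ab : a ≠ b) (n : ¬ G.Adj a b)
    (j : ∀ w ∈ Y, G.Adj w a ∧ G.Adj w b) (ua : Uq G f y a) (ub : Uq G f y b) : False := by
  have mY : ∀ w ∈ Y, w ∈ insert a (insert b Y) := fun w k => by simp [k]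
  have sa : a ∈ F.S := hS (by simp)
  have sb : b ∈ F.S := hS (by simp)
  have ya := (j y hy).1
  have yb := (j y hy).2
  have lt : ∀ w ∈ Y.erase y, f w < D := fun w k =>
    h.lt w (hS (mY w (mem_of_mem_erase k))) (ne_of_mem_erase k)
  have one : ∀ v, (∀ x ∈ Y.erase y, ∀ x' ∈ Y.erase y, ¬ Uq G f v x → ¬ Uq G f v x' → f x = f x') →
      ((Y.erase y).filter fun x => ¬ Uq G f v x).card ≤ 1 := fun v k =>
    card_le_one.2 fun x p x' p' => by
      rw [mem_filter] at p p'
      exact h.inj hY (mem_of_mem_erase p.1) (mem_of_mem_erase p'.1) (k x p.1 x' p'.1 p.2 p'.2)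
  have yw : ∀ w ∈ Y.erase y, G.Adj y w := fun w k =>
    hY y hy w (mem_of_mem_erase k) (ne_of_mem_erase k).symm
  have c1 := one y fun x p x' p' => TW.dbl h (hd y (mY y hy)) (yw x p) (yw x' p') (lt x p) (lt x' p')
  have c2 := one a fun x p x' p' => TW.dbl' h sa ya ua (hd a (by simp))
    (j x (mem_of_mem_erase p)).1.symm (j x' (mem_of_mem_erase p')).1.symm (lt x p) (lt x' p')
  have c3 := one b fun x p x' p' => TW.dbl' h sb yb ub (hd b (by simp))
    (j x (mem_of_mem_erase p)).2.symm (j x' (mem_of_mem_erase p')).2.symm (lt x p) (lt x' p')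
  have c4 := card_erase_add_one hy
  have c5 := card_union_le ((Y.erase y).filter fun x => ¬ Uq G f a x)
    ((Y.erase y).filter fun x => ¬ Uq G f b x)
  have c6 := card_union_le ((Y.erase y).filter fun x => ¬ Uq G f y x)
    (((Y.erase y).filter fun x => ¬ Uq G f a x) ∪ (Y.erase y).filter fun x => ¬ Uq G f b x)
  obtain ⟨w, hw, nw⟩ := exists_mem_notMem_of_card_lt_card (t := Y.erase y)
    (s := ((Y.erase y).filter fun x => ¬ Uq G f y x) ∪
      (((Y.erase y).filter fun x => ¬ Uq G f a x) ∪ (Y.erase y).filter fun x => ¬ Uq G f b x))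
    (by omega)
  simp only [mem_union, mem_filter, hw, true_and, not_or, not_not] at nw
  obtain ⟨u1, u2, u3⟩ := nw
  have wY := mem_of_mem_erase hw
  have sw := hS (mY w wY)
  have wy := ne_of_mem_erase hw
  by_cases p : Uq G f w a
  · exact n (h.swap_adj sw sa sb wy ya yb.ne.symm ub (j w wY).1 (j w wY).2 u2 u3 p ab)
  by_cases q : Uq G f w b
  · exact n (h.swap_adj sw sb sa wy yb ya.ne.symm ua (j w wY).2 (j w wY).1 u3 u2 q ab.symm).symm
  exact ub a ya ab (TW.dbl' h sw (yw w hw) u1 (hd w (mY w wY)) (j w wY).1 (j w wY).2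
    (h.lt a sa ya.ne.symm) (h.lt b sb yb.ne.symm) p q)

namespace IsC
variable {T : Tr G D} {Y W K : Finset V} {q y z a b x r v : V}

theorem deg' (h : IsC T) (hv : v ∉ T.Dm) : (nb G v).card ≤ D + 1 := by
  simpa [h.s2] using h.deg v hv

theorem dg' (h : IsC T) (hv : v ∉ T.Dm) (S : Finset V) : (T.fm z S).Dg G D v :=
  (card_le_card sdiff_subset).trans (h.deg' hv)

theorem tw (h : IsC T) (hy : y ∈ T.R) (hY : IsClq G Y) (m : y ∈ Y) (c : 5 ≤ Y.card)
    (o : ∀ v ∈ insert a (insert b Y), v ∉ T.Dm) (ab : a ≠ b) (n : ¬ G.Adj a b)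
    (j : ∀ w ∈ Y, G.Adj w a ∧ G.Adj w b) : a ∈ T.Bd y ∨ b ∈ T.Bd y := by
  by_contra k
  rw [not_or, IsB.mem_Bd' hy (o a (by simp)), IsB.mem_Bd' hy (o b (by simp))] at k
  have cl : IsClq G (insert b Y) := fun u p v q e => by
    rcases mem_insert.1 p with p | p <;> rcases mem_insert.1 q with q | q
    exacts [absurd (p.trans q.symm) e, p ▸ (j v q).2.symm, q ▸ (j u p).2, hY u p v q e]
  exact tw_hc (h.hc hy (S := insert a (insert b Y)) (by simp [m]) o ((Cov.clq cl).ins a))
    (fun v p => h.dg' (o v p) _) subset_rfl hY m c ab n j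
    (by_contra fun t => k.1 ⟨(j y m).1, t⟩) (by_contra fun t => k.2 ⟨(j y m).2, t⟩)

/-- a visited vertex that misses two members has at most two unique and three neighbours -/
theorem far2 (h : IsC T) (hz : z ∈ T.R) (hK : IsClq G K) (o : ∀ v ∈ K, v ∉ T.Dm) (n : z ∉ K)
    (f : ∃ w ∈ K, ∃ w' ∈ K, w ≠ w' ∧ ¬ G.Adj z w ∧ ¬ G.Adj z w') :
    (K.filter fun u => G.Adj z u ∧ Uq G (T.col z) z u).card ≤ 2 ∧
      (K.filter (G.Adj z)).card ≤ 3 := by
  obtain ⟨w, hw, w', hw', e, n1, n2⟩ := f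
  have s := h.hc hz (S := insert z K) (mem_insert_self _ _) (fun m p => by
    rcases mem_insert.1 p with rfl | p
    exacts [T.real _ hz, o m p]) ((Cov.clq hK).ins z)
  constructor <;> by_contra k
  · exact e (s.hanger (fun v p => h.dg' (o v p) _) (subset_insert _ _) hK n (filter_subset _ _)
      (by omega) (fun u p => (mem_filter.1 p).2) hw hw' n1 n2)
  · exact e (s.hang4 (h.dg' (T.real z hz) _) (fun v p => h.dg' (o v p) _) (subset_insert _ _) hK n
      (by omega) hw hw' n1 n2)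

/-- `big_in` from the existence of clusters. -/
theorem big_in_of (h : IsC T) (hD : 14 ≤ D) (hK : IsClq G K) (o : K ⊆ T.R) (big : D ≤ K.card + 4)
    (ex : ∃ Y W, Clu G D T.Dm Y W ∧ (K \ (Y ∪ W)).card ≤ 1) :
    ∃ Y W q, Fam T Y W q ∧ K ⊆ Y ∪ W := by
  obtain ⟨Y, W, cl, c⟩ := ex
  have sub : K ⊆ Y ∪ W := fun z hz => by
    by_contra nz
    have f := (h.far2 (o hz) cl.clq (fun v p => cl.real v (mem_union_left _ p))
      (fun p => nz (mem_union_left _ p)) (cl.far z (T.real z (o hz)) nz)).2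
    have cW : W.card ≤ 2 := by
      rcases cl.tw with rfl | ⟨a, b, -, -, rfl⟩
      exacts [by simp, card_le_two]
    have c1 := card_le_card (s := K) (t := (K \ (Y ∪ W)) ∪ (Y.filter (G.Adj z) ∪ W)) fun u p => by
      by_cases t : u ∈ Y ∪ W
      · refine mem_union_right _ ((mem_union.1 t).elim (fun t' => mem_union_left _ ?_)
          (mem_union_right _))
        exact mem_filter.2 ⟨t', hK z hz u p fun e => nz (e ▸ t)⟩
      · exact mem_union_left _ (mem_sdiff.2 ⟨p, t⟩)
    have := card_union_le (K \ (Y ∪ W)) (Y.filter (G.Adj z) ∪ W)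
    have := card_union_le (Y.filter (G.Adj z)) W
    omega
  obtain ⟨x, hx⟩ := card_pos.1 (show 0 < K.card by omega)
  obtain ⟨q, f⟩ := h.fam Y W cl x (o hx) (sub hx)
  exact ⟨Y, W, q, f, sub⟩

/-- a large clique of visited vertices lies in a cluster -/
theorem big_in (h : IsC T) (hD : 14 ≤ D) (hK : IsClq G K) (o : K ⊆ T.R) (big : D ≤ K.card + 4) :
    ∃ Y W q, Fam T Y W q ∧ K ⊆ Y ∪ W :=
  h.big_in_of hD hK o big (clu_exists h.stat h.nok (fun _ => h.deg') hD hK
    (fun v p => T.real v (o p)) big)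

end IsC

end Pool.Agent.Lib.MP_12eaff_co.FB
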